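import Pool.Agent.helper19.FK.Fin0
import Pool.Agent.helper19.FK.LOS
import Pool.Agent.helper19.FK.CLG
import Pool.Agent.helper76.FG.Spec
import Pool.Agent.helper8.IT.GEN
import Pool.Agent.helper21.IT.ADF
import Pool.Agent.helper29.IT.GCT
import Pool.Agent.helper43.IT.K4R
import Pool.Agent.helper98.IT.K4C
import Pool.Agent.helper72.AT.PSY

/-!
# Project FG: four integers, and the four integers `6, 8, 9, 12` (an example of helper38)

All quotients of `6, 8, 9, 12` are of the form `(n + 1)/n`: so the forms `6 n + c, 8 n + c, 9 n + c, 12 n + c` give the same `c` for every pair.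
-/

set_option autoImplicit false

namespace Pool.Agent.FG

open Finset Pool.Agent.AT
open Pool.Agent.SK (Dens)
open Pool.Agent.FP (rd)
open Pool.Agent.helper85.FC (TrueCase)

/-- the forms `s_i n + h` are admissible if all `s_i` are prime to `h` -/
theorem Ex_adm {k : ℕ} (h : ℤ) (s : Fin k → ℕ) (hs : ∀ i, IsCoprime h (s i : ℤ)) : Adm (fun i => (s i, h)) := by
  intro p hp
  by_cases hph : (p : ℤ) ∣ h
  · refine ⟨1, fun i hd => ?_⟩
    dsimp only at hd
    have h1 : (p : ℤ) ∣ s i := by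
      have h2 := dvd_sub hd hph
      have h3 : (s i : ℤ) * ((1 : ℕ) : ℤ) + h - h = s i := by push_cast; ring
      rw [h3] at h2
      exact h2
    have h2 := (hs i).isUnit_of_dvd' hph h1
    rw [Int.isUnit_iff] at h2
    have := hp.one_lt
    omega
  · exact ⟨0, fun i hd => hph (by simpa using hd)⟩

/-- any four different positive integers prime to `h` -/
theorem Ex_four (h : ℤ) (s : Fin 4 → ℕ) (hs0 : ∀ i, 1 ≤ s i) (hs : ∀ i, IsCoprime h (s i : ℤ)) :
    ∃ i j, i < j ∧ Dens (1 / 2 + 3 / 10 ^ 6) (rd (s i) (s j)).1 (rd (s i) (s j)).2 (h * (((rd (s i) (s j)).1 : ℤ) - (rd (s i) (s j)).2)) := by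
  obtain ⟨I, hI, h1⟩ := Pool.Agent.FK.four_forms Pool.Agent.FK.CLG Pool.Agent.FK.LOS (fun i => (s i, h)) hs0 (Ex_adm h s hs)
  have hI1 : 1 < #I := by
    have h2 : (1 : ℝ) < #I := by
      have h3 : ((4 : ℕ) : ℝ) / 4 = 1 := by norm_num
      rw [h3] at hI
      exact hI
    exact_mod_cast h2
  obtain ⟨i, hi, j, hj, hij⟩ := one_lt_card.1 hI1
  have key : ∀ i j, Dens (1 / 2 + 3 / 10 ^ 6) (s j / Nat.gcd (s i) (s j)) (s i / Nat.gcd (s i) (s j))
      (((s j / Nat.gcd (s i) (s j) : ℕ) : ℤ) * h - ((s i / Nat.gcd (s i) (s j) : ℕ) : ℤ) * h) →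
      Dens (1 / 2 + 3 / 10 ^ 6) (rd (s i) (s j)).1 (rd (s i) (s j)).2 (h * (((rd (s i) (s j)).1 : ℤ) - (rd (s i) (s j)).2)) := by
    intro i j h2
    unfold rd
    dsimp only
    have h3 : h * (((s j / Nat.gcd (s i) (s j) : ℕ) : ℤ) - ((s i / Nat.gcd (s i) (s j) : ℕ) : ℤ)) =
        ((s j / Nat.gcd (s i) (s j) : ℕ) : ℤ) * h - ((s i / Nat.gcd (s i) (s j) : ℕ) : ℤ) * h := by ring
    rw [h3]
    exact h2
  rcases lt_or_gt_of_ne hij with h4 | h4
  · exact ⟨i, j, h4, key i j (h1 i hi j hj hij)⟩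
  · exact ⟨j, i, h4, key j i (h1 j hj i hi hij.symm)⟩

/-- the slopes `6, 8, 9, 12` -/
def sl : Fin 4 → ℕ := ![6, 8, 9, 12]

theorem sl_cop (c : ℤ) (hc : IsCoprime c 6) (i : Fin 4) : IsCoprime c (sl i : ℤ) := by
  have h6 : (6 : ℤ) = 2 * 3 := by norm_num
  rw [h6] at hc
  have h2 := hc.of_mul_right_left
  have h3 := hc.of_mul_right_right
  fin_cases i
  · show IsCoprime c (((6 : ℕ) : ℤ))
    have : (((6 : ℕ) : ℤ)) = 2 * 3 := by norm_num
    rw [this]
    exact h2.mul_right h3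
  · show IsCoprime c (((8 : ℕ) : ℤ))
    have : (((8 : ℕ) : ℤ)) = 2 ^ 3 := by norm_num
    rw [this]
    exact h2.pow_right
  · show IsCoprime c (((9 : ℕ) : ℤ))
    have : (((9 : ℕ) : ℤ)) = 3 ^ 2 := by norm_num
    rw [this]
    exact h3.pow_right
  · show IsCoprime c (((12 : ℕ) : ℤ))
    have : (((12 : ℕ) : ℤ)) = 2 ^ 2 * 3 := by norm_num
    rw [this]
    exact h2.pow_right.mul_right h3

/-- for EVERY `c` prime to `6` one of the four equations is true for more than half near `c` -/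
theorem Ex_half (c : ℤ) (hc : IsCoprime c 6) : Dens (1 / 2 + 3 / 10 ^ 6) 2 1 c ∨ Dens (1 / 2 + 3 / 10 ^ 6) 3 2 c ∨ Dens (1 / 2 + 3 / 10 ^ 6) 4 3 c ∨
    Dens (1 / 2 + 3 / 10 ^ 6) 9 8 c := by
  obtain ⟨i, j, hij, h⟩ := Ex_four c sl (fun i => by fin_cases i <;> decide) (sl_cop c hc)
  obtain ⟨θ, hθ⟩ : ∃ θ : ℝ, θ = 1 / 2 + 3 / 10 ^ 6 := ⟨_, rfl⟩
  rw [← hθ] at h ⊢
  have key : ∀ a b : ℕ, a = b + 1 → rd (sl i) (sl j) = (a, b) → Dens θ a b c := by
    intro a b hab h1
    rw [h1] at h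
    dsimp only at h
    have h2 : c * ((a : ℤ) - b) = c := by
      rw [hab]
      push_cast
      ring
    rw [h2] at h
    exact h
  fin_cases i <;> fin_cases j <;> first
    | exact absurd hij (by decide)
    | exact Or.inl (key 2 1 rfl (by decide))
    | exact Or.inr (Or.inl (key 3 2 rfl (by decide)))
    | exact Or.inr (Or.inr (Or.inl (key 4 3 rfl (by decide))))
    | exact Or.inr (Or.inr (Or.inr (key 9 8 rfl (by decide))))

open Classical in
/-- almost every `c` prime to `6` is true for one of the four pairs -/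
theorem Ex_almost (ε : ℝ) (hε : 0 < ε) : ∃ M₀ : ℕ, ∀ M : ℕ, M₀ ≤ M → ∀ u : ℤ,
    (#{c ∈ Ioc u (u + M) | IsCoprime c 6 ∧ ¬ (TrueCase 2 1 c ∨ TrueCase 3 2 c ∨ TrueCase 4 3 c ∨ TrueCase 9 8 c)} : ℝ) ≤ ε * M := by
  have hGCT : Pool.Agent.IT.GCT_stmt := Pool.Agent.IT.GCT (Pool.Agent.IT.K4R Pool.Agent.IT.K4C)
  obtain ⟨M₀, h⟩ := Pool.Agent.IT.GEN hGCT Pool.Agent.IT.ADF QPc_all sl (fun _ => 1) (fun _ => 0) (fun i => by fin_cases i <;> decide) (by
    intro i j hij
    fin_cases i <;> fin_cases j <;> first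
      | exact absurd rfl hij
      | (unfold sl; norm_num)) ε hε
  refine ⟨M₀, fun M hM u => le_trans ?_ (h M hM u)⟩
  refine Nat.cast_le.2 (card_le_card fun c hc => ?_)
  rw [mem_filter] at hc ⊢
  refine ⟨hc.1, ?_, ?_⟩
  · have h1 := Ex_adm c sl (sl_cop c hc.2.1)
    have h2 : (fun i : Fin 4 => (sl i, (1 : ℤ) * c + 0)) = fun i => (sl i, c) := by
      funext i
      rw [one_mul, add_zero]
    rw [h2]
    exact h1
  · intro i j hij hP
    apply hc.2.2
    have key : ∀ i j : Fin 4, ∀ a b : ℕ, a = b + 1 → sl j / Nat.gcd (sl i) (sl j) = a → sl i / Nat.gcd (sl i) (sl j) = b → (sl j : ℤ) - sl i = Nat.gcd (sl i) (sl j) → 0 < Nat.gcd (sl i) (sl j) →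
        Pair (sl i, (1 : ℤ) * c + 0) (sl j, (1 : ℤ) * c + 0) → TrueCase a b c := by
      intro i j a b hab h1 h2 h3 h4 h5
      unfold Pair at h5
      dsimp only at h5
      rw [h1, h2] at h5
      have h6 : ((sl j : ℤ) * (1 * c + 0) - (sl i : ℤ) * (1 * c + 0)) / ((Nat.gcd (sl i) (sl j) : ℕ) : ℤ) = c := by
        have h7 : (sl j : ℤ) * (1 * c + 0) - (sl i : ℤ) * (1 * c + 0) = ((Nat.gcd (sl i) (sl j) : ℕ) : ℤ) * c := by
          rw [← h3]
          ring
        rw [h7, Int.mul_ediv_cancel_left _ (by exact_mod_cast h4.ne')]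
      rw [h6] at h5
      exact h5
    have key' : ∀ i j : Fin 4, ∀ a b : ℕ, a = b + 1 → sl i / Nat.gcd (sl i) (sl j) = a → sl j / Nat.gcd (sl i) (sl j) = b → (sl i : ℤ) - sl j = Nat.gcd (sl i) (sl j) → 0 < Nat.gcd (sl i) (sl j) →
        Pair (sl i, (1 : ℤ) * c + 0) (sl j, (1 : ℤ) * c + 0) → TrueCase a b c := by
      intro i j a b hab h1 h2 h3 h4 h5
      unfold Pair at h5
      dsimp only at h5
      rw [h1, h2] at h5
      have h6 : ((sl j : ℤ) * (1 * c + 0) - (sl i : ℤ) * (1 * c + 0)) / ((Nat.gcd (sl i) (sl j) : ℕ) : ℤ) = -c := by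
        have h7 : (sl j : ℤ) * (1 * c + 0) - (sl i : ℤ) * (1 * c + 0) = ((Nat.gcd (sl i) (sl j) : ℕ) : ℤ) * (-c) := by
          rw [← h3]
          ring
        rw [h7, Int.mul_ediv_cancel_left _ (by exact_mod_cast h4.ne')]
      rw [h6] at h5
      have h8 := PSY_symm h5
      rw [neg_neg] at h8
      exact h8
    fin_cases i <;> fin_cases j <;> first
      | exact absurd rfl hij
      | exact Or.inl (key _ _ 2 1 rfl (by decide) (by decide) (by decide) (by decide) hP)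
      | exact Or.inr (Or.inl (key _ _ 3 2 rfl (by decide) (by decide) (by decide) (by decide) hP))
      | exact Or.inr (Or.inr (Or.inl (key _ _ 4 3 rfl (by decide) (by decide) (by decide) (by decide) hP)))
      | exact Or.inr (Or.inr (Or.inr (key _ _ 9 8 rfl (by decide) (by decide) (by decide) (by decide) hP)))
      | exact Or.inl (key' _ _ 2 1 rfl (by decide) (by decide) (by decide) (by decide) hP)
      | exact Or.inr (Or.inl (key' _ _ 3 2 rfl (by decide) (by decide) (by decide) (by decide) hP))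
      | exact Or.inr (Or.inr (Or.inl (key' _ _ 4 3 rfl (by decide) (by decide) (by decide) (by decide) hP)))
      | exact Or.inr (Or.inr (Or.inr (key' _ _ 9 8 rfl (by decide) (by decide) (by decide) (by decide) hP)))

end Pool.Agent.FG
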