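import Pool.Agent.helper72.FG.Cx
import Pool.Agent.helper72.FE.Exp
import Pool.Agent.helper72.FPC.CNT
import Pool.Agent.helper72.FPC.POW

/-!
# Project FG: consequences of `FGC` for four coefficients
-/

set_option autoImplicit false

namespace Pool.Agent.FG

open Finset
open Pool.Agent.FP (rd)
open Pool.Agent.IT (Ad br)
open Pool.Agent.FPC (POW_inj CNT_third)
open Pool.Agent.FEX (Four)

/-- the property of `FGC` for four coefficients -/
def FG4 (ε : ℝ) (u : ℤ) (v n K : ℕ) (E : Finset (ℕ × ℕ)) : Prop := ∀ s : Fin 4 → ℕ, (∀ i, 1 ≤ s i) → Function.Injective s →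
  (∀ i j, i ≠ j → rd (s i) (s j) ∉ E ∧ Cx u v n K (rd (s i) (s j))) → ∃ i j, i ≠ j ∧ GoodX ε u v n (rd (s i) (s j)) ∧ GoodX ε u v n (rd (s j) (s i))

theorem FG4_of (h : FGC_stmt) : ∃ C : ℝ, 0 < C ∧ ∀ ε : ℝ, 0 < ε → ε ≤ 1 → ∃ K : ℕ, ∀ (u : ℤ) (v n : ℕ), u ≠ 0 → 1 ≤ v → 1 ≤ n → IsCoprime u (v : ℤ) →
    ∃ E : Finset (ℕ × ℕ), (#E : ℝ) ≤ C / ε ^ 4 ∧ FG4 ε u v n K E := by
  obtain ⟨C, hC, h1⟩ := h 4 (by norm_num)
  refine ⟨C, hC, fun ε hε hε1 => ?_⟩
  obtain ⟨K, h2⟩ := h1 ε hε hε1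
  refine ⟨K, fun u v n hu hv hn huv => ?_⟩
  obtain ⟨E, hE, h3⟩ := h2 u v n hu hv hn huv
  refine ⟨E, hE, fun s hs hinj hrat => ?_⟩
  obtain ⟨S, hS, h4⟩ := h3 s hs hinj hrat
  obtain ⟨i, hi, j, hj, hij⟩ := one_lt_card.1 (show 1 < #S by omega)
  exact ⟨i, j, hij, h4 i hi j hj hij, h4 j hj i hi hij.symm⟩

theorem rd_pow (a b X x y : ℕ) (ha : 1 ≤ a) (hb : 1 ≤ b) (hab : Nat.Coprime a b) (hxy : x < y) (hy : y ≤ X) :
    rd (a ^ (X - x) * b ^ x) (a ^ (X - y) * b ^ y) = (b ^ (y - x), a ^ (y - x)) ∧ rd (a ^ (X - y) * b ^ y) (a ^ (X - x) * b ^ x) = (a ^ (y - x), b ^ (y - x)) := by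
  obtain ⟨g, hg⟩ : ∃ g, g = a ^ (X - y) * b ^ x := ⟨_, rfl⟩
  have hg0 : 0 < g := by rw [hg]; positivity
  have h1 : a ^ (X - x) * b ^ x = g * a ^ (y - x) := by
    have : X - x = (X - y) + (y - x) := by omega
    rw [hg, this, pow_add]
    ring
  have h2 : a ^ (X - y) * b ^ y = g * b ^ (y - x) := by
    have : y = x + (y - x) := by omega
    rw [hg]
    nth_rewrite 2 [this]
    rw [pow_add]
    ring
  have h3 : Nat.gcd (g * a ^ (y - x)) (g * b ^ (y - x)) = g := by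
    rw [Nat.gcd_mul_left, (Nat.Coprime.pow _ _ hab : Nat.gcd (a ^ (y - x)) (b ^ (y - x)) = 1), mul_one]
  unfold rd
  rw [h1, h2, h3, Nat.gcd_comm (g * b ^ (y - x)), h3, Nat.mul_div_cancel_left _ hg0, Nat.mul_div_cancel_left _ hg0]
  exact ⟨rfl, rfl⟩

/-- the four property of the exponents of a case -/
theorem four_case (ε : ℝ) (u : ℤ) (v n K : ℕ) (E : Finset (ℕ × ℕ)) (h4 : FG4 ε u v n K E) (a b : ℕ) (ha : 1 ≤ a) (hb : 1 ≤ b) (hab : Nat.Coprime a b) (hne : a ≠ b)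
    (hCx : ∀ d : ℕ, 1 ≤ d → Cx u v n K (a ^ d, b ^ d)) :
    ∃ E' : Finset ℕ, #E' ≤ 2 * #E ∧ (∀ d : ℕ, (a ^ d, b ^ d) ∉ E → (b ^ d, a ^ d) ∉ E → d ∉ E') ∧ Four E' (fun d => GoodX ε u v n (a ^ d, b ^ d)) := by
  classical
  have h11 : ¬ (a = 1 ∧ b = 1) := fun h => hne (h.1.trans h.2.symm)
  have h11' : ¬ (b = 1 ∧ a = 1) := fun h => hne (h.2.trans h.1.symm)
  have i1 : Set.InjOn (fun d : ℕ => (a ^ d, b ^ d)) ((fun d : ℕ => (a ^ d, b ^ d)) ⁻¹' (E : Set (ℕ × ℕ))) := by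
    intro d _ d' _ h
    exact POW_inj a b ha hb h11 _ _ (Prod.mk.inj h).1 (Prod.mk.inj h).2
  have i2 : Set.InjOn (fun d : ℕ => (b ^ d, a ^ d)) ((fun d : ℕ => (b ^ d, a ^ d)) ⁻¹' (E : Set (ℕ × ℕ))) := by
    intro d _ d' _ h
    exact POW_inj b a hb ha h11' _ _ (Prod.mk.inj h).1 (Prod.mk.inj h).2
  refine ⟨E.preimage _ i1 ∪ E.preimage _ i2, ?_, ?_, ?_⟩
  · have h1 : #(E.preimage _ i1) ≤ #E := card_le_card_of_injOn (fun d : ℕ => (a ^ d, b ^ d)) (fun d hd => by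
      rw [mem_coe, mem_preimage] at hd
      exact hd) (fun d _ d' _ h => POW_inj a b ha hb h11 _ _ (Prod.mk.inj h).1 (Prod.mk.inj h).2)
    have h2 : #(E.preimage _ i2) ≤ #E := card_le_card_of_injOn (fun d : ℕ => (b ^ d, a ^ d)) (fun d hd => by
      rw [mem_coe, mem_preimage] at hd
      exact hd) (fun d _ d' _ h => POW_inj b a hb ha h11' _ _ (Prod.mk.inj h).1 (Prod.mk.inj h).2)
    have h3 := card_union_le (E.preimage _ i1) (E.preimage _ i2)
    omega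
  · intro d h1 h2 h3
    rw [mem_union, mem_preimage, mem_preimage] at h3
    rcases h3 with h3 | h3
    · exact h1 h3
    · exact h2 h3
  · intro x hx hxE
    have hX : ∀ i, x i ≤ x 3 := fun i => hx.monotone (by fin_cases i <;> decide)
    have key : ∀ i j, i < j → (rd (a ^ (x 3 - x i) * b ^ x i) (a ^ (x 3 - x j) * b ^ x j) = (b ^ (x j - x i), a ^ (x j - x i)) ∧
        rd (a ^ (x 3 - x j) * b ^ x j) (a ^ (x 3 - x i) * b ^ x i) = (a ^ (x j - x i), b ^ (x j - x i))) :=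
      fun i j hij => rd_pow a b (x 3) (x i) (x j) ha hb hab (hx hij) (hX j)
    have hE : ∀ i j, i < j → (a ^ (x j - x i), b ^ (x j - x i)) ∉ E ∧ (b ^ (x j - x i), a ^ (x j - x i)) ∉ E := by
      intro i j hij
      have h1 := hxE i j hij
      rw [mem_union, mem_preimage, mem_preimage] at h1
      exact ⟨fun h => h1 (Or.inl h), fun h => h1 (Or.inr h)⟩
    obtain ⟨i, j, hij, hG1, hG2⟩ := h4 (fun i => a ^ (x 3 - x i) * b ^ x i) (fun i => Nat.mul_pos (Nat.pow_pos ha) (Nat.pow_pos hb)) (by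
      intro i j hij
      by_contra hcon
      have hlt : ∀ i j, i < j → a ^ (x 3 - x i) * b ^ x i ≠ a ^ (x 3 - x j) * b ^ x j := by
        intro i j h1 h2
        have h3 := (key i j h1).1
        have h4' := (key i j h1).2
        rw [h2] at h3 h4'
        rw [h3] at h4'
        have h5 := (Prod.mk.inj h4').1
        have h6 : 0 < x j - x i := by
          have := hx h1
          omega
        exact hne ((Nat.pow_left_injective (by omega : x j - x i ≠ 0) h5).symm)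
      dsimp only at hij
      rcases lt_or_gt_of_ne hcon with h1 | h1
      · exact hlt i j h1 hij
      · exact hlt j i h1 hij.symm) (by
      intro i j hij
      rcases lt_or_gt_of_ne hij with h1 | h1
      · rw [(key i j h1).1]
        have h2 : 1 ≤ x j - x i := by
          have := hx h1
          omega
        exact ⟨(hE i j h1).2, Cx_swap _ _ _ _ _ _ (hCx _ h2)⟩
      · rw [(key j i h1).2]
        have h2 : 1 ≤ x i - x j := by
          have := hx h1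
          omega
        exact ⟨(hE j i h1).1, hCx _ h2⟩)
    rcases lt_or_gt_of_ne hij with h1 | h1
    · rw [(key i j h1).2] at hG2
      exact ⟨i, j, h1, hG2⟩
    · rw [(key j i h1).2] at hG1
      exact ⟨j, i, h1, hG1⟩

/-- the pairs whose first three powers are not exceptional -/
theorem pairs (E : Finset (ℕ × ℕ)) : ∃ F : Finset (ℕ × ℕ), #F ≤ 6 * #E ∧ ∀ a b : ℕ, (a, b) ∉ F → ∀ d : ℕ, 1 ≤ d → d ≤ 3 → (a ^ d, b ^ d) ∉ E ∧ (b ^ d, a ^ d) ∉ E := by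
  classical
  have inj : ∀ d : ℕ, 1 ≤ d → Function.Injective (fun r : ℕ × ℕ => (r.1 ^ d, r.2 ^ d)) := by
    intro d hd r r' h
    exact Prod.ext (Nat.pow_left_injective (by omega : d ≠ 0) (Prod.mk.inj h).1) (Nat.pow_left_injective (by omega : d ≠ 0) (Prod.mk.inj h).2)
  have inj' : ∀ d : ℕ, 1 ≤ d → Function.Injective (fun r : ℕ × ℕ => (r.2 ^ d, r.1 ^ d)) := by
    intro d hd r r' h
    exact Prod.ext (Nat.pow_left_injective (by omega : d ≠ 0) (Prod.mk.inj h).2) (Nat.pow_left_injective (by omega : d ≠ 0) (Prod.mk.inj h).1)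
  have h1 : ∀ d : ℕ, 1 ≤ d → ∃ F : Finset (ℕ × ℕ), #F ≤ 2 * #E ∧ ∀ a b : ℕ, (a, b) ∉ F → (a ^ d, b ^ d) ∉ E ∧ (b ^ d, a ^ d) ∉ E := by
    intro d hd
    refine ⟨E.preimage _ ((inj d hd).injOn) ∪ E.preimage _ ((inj' d hd).injOn), ?_, fun a b h => ?_⟩
    · have h1 : #(E.preimage _ ((inj d hd).injOn)) ≤ #E := card_le_card_of_injOn (fun r : ℕ × ℕ => (r.1 ^ d, r.2 ^ d)) (fun r hr => by
        rw [mem_coe, mem_preimage] at hr
        exact hr) ((inj d hd).injOn)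
      have h2 : #(E.preimage _ ((inj' d hd).injOn)) ≤ #E := card_le_card_of_injOn (fun r : ℕ × ℕ => (r.2 ^ d, r.1 ^ d)) (fun r hr => by
        rw [mem_coe, mem_preimage] at hr
        exact hr) ((inj' d hd).injOn)
      have h3 := card_union_le (E.preimage _ ((inj d hd).injOn)) (E.preimage _ ((inj' d hd).injOn))
      omega
    · rw [mem_union, mem_preimage, mem_preimage] at h
      exact ⟨fun h2 => h (Or.inl h2), fun h2 => h (Or.inr h2)⟩
  obtain ⟨F1, c1, e1⟩ := h1 1 le_rfl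
  obtain ⟨F2, c2, e2⟩ := h1 2 (by norm_num)
  obtain ⟨F3, c3, e3⟩ := h1 3 (by norm_num)
  refine ⟨F1 ∪ F2 ∪ F3, ?_, fun a b h d hd1 hd3 => ?_⟩
  · have h2 := card_union_le (F1 ∪ F2) F3
    have h3 := card_union_le F1 F2
    omega
  · rw [mem_union, mem_union, not_or, not_or] at h
    interval_cases d
    · exact e1 a b h.1.1
    · exact e2 a b h.1.2
    · exact e3 a b h.2

/-- one of the first three powers -/
theorem three_case (ε : ℝ) (u : ℤ) (v n K : ℕ) (E F : Finset (ℕ × ℕ)) (h4 : FG4 ε u v n K E)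
    (hF : ∀ a b : ℕ, (a, b) ∉ F → ∀ d : ℕ, 1 ≤ d → d ≤ 3 → (a ^ d, b ^ d) ∉ E ∧ (b ^ d, a ^ d) ∉ E) (a b : ℕ) (ha : 1 ≤ a) (hb : 1 ≤ b) (hab : Nat.Coprime a b) (hne : a ≠ b)
    (hCx : ∀ d : ℕ, 1 ≤ d → Cx u v n K (a ^ d, b ^ d)) (h : (a, b) ∉ F) :
    GoodX ε u v n (a ^ 1, b ^ 1) ∨ GoodX ε u v n (a ^ 2, b ^ 2) ∨ GoodX ε u v n (a ^ 3, b ^ 3) := by
  obtain ⟨E', -, hE', h5⟩ := four_case ε u v n K E h4 a b ha hb hab hne hCx
  have h6 : ∀ d : ℕ, 1 ≤ d → d ≤ 3 → d ∉ E' := fun d h1 h2 => hE' d (hF a b h d h1 h2).1 (hF a b h d h1 h2).2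
  obtain ⟨i, j, hij, hP⟩ := h5 (fun i => (i : ℕ)) (fun i j hij => hij) (fun i j hij => by
    have h1 : (i : ℕ) < j := hij
    exact h6 _ (by omega) (by omega))
  have h1 : (i : ℕ) < j := hij
  obtain ⟨d, hd⟩ : ∃ d, d = (j : ℕ) - i := ⟨_, rfl⟩
  rw [← hd] at hP
  have h2 : d = 1 ∨ d = 2 ∨ d = 3 := by omega
  rcases h2 with rfl | rfl | rfl
  · exact Or.inl hP
  · exact Or.inr (Or.inl hP)
  · exact Or.inr (Or.inr hP)

theorem rd_inj {s t t' : ℕ} (hs : 1 ≤ s) (h : rd s t = rd s t') : t = t' := by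
  have key : ∀ t : ℕ, s * (rd s t).1 = t * (rd s t).2 := by
    intro t
    unfold rd
    dsimp only
    rw [← Nat.mul_div_assoc s (Nat.gcd_dvd_right s t), ← Nat.mul_div_assoc t (Nat.gcd_dvd_left s t), mul_comm]
  have h1 := key t
  have h2 := key t'
  rw [← h, h1] at h2
  have h3 : 0 < (rd s t).2 := Nat.div_pos (Nat.gcd_le_left t hs) (Nat.gcd_pos_of_pos_left t hs)
  exact Nat.eq_of_mul_eq_mul_right h3 h2

open Classical in
/-- a third of the pairs of a finite set -/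
theorem count (ε : ℝ) (u : ℤ) (v n K : ℕ) (E : Finset (ℕ × ℕ)) (h4 : FG4 ε u v n K E) (F : Finset ℕ) (hF : ∀ s ∈ F, 1 ≤ s)
    (hCx : ∀ s ∈ F, ∀ t ∈ F, s ≠ t → Cx u v n K (rd s t)) :
    1 / 3 * (#F : ℝ) ^ 2 - (2 * #E + 1) * #F ≤ #{p ∈ F ×ˢ F | GoodX ε u v n (rd p.1 p.2)} := by
  obtain ⟨Q, hQ⟩ : ∃ Q : ℕ → ℕ → Prop, Q = fun s t => (GoodX ε u v n (rd s t) ∧ GoodX ε u v n (rd t s)) ∨ rd s t ∈ E ∨ rd t s ∈ E := ⟨_, rfl⟩
  have hsym : ∀ a b, Q a b → Q b a := by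
    intro a b h
    rw [hQ] at h ⊢
    rcases h with h | h | h
    · exact Or.inl ⟨h.2, h.1⟩
    · exact Or.inr (Or.inr h)
    · exact Or.inr (Or.inl h)
  have h4' : ∀ a : Fin 4 → ℕ, Function.Injective a → (∀ j, a j ∈ F) → ∃ i j, i ≠ j ∧ Q (a i) (a j) := by
    intro a ha haF
    by_contra hc
    push Not at hc
    obtain ⟨i, j, hij, hg⟩ := h4 a (fun i => hF _ (haF i)) ha (by
      intro i j hij
      refine ⟨fun h => ?_, hCx _ (haF i) _ (haF j) (fun h => hij (ha h))⟩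
      apply hc i j hij
      rw [hQ]
      exact Or.inr (Or.inl h))
    apply hc i j hij
    rw [hQ]
    exact Or.inl hg
  have h5 := CNT_third hsym F h4'
  have hsub : (F ×ˢ F).filter (fun ab => ab.1 ≠ ab.2 ∧ Q ab.1 ab.2) ⊆
      ((F ×ˢ F).filter (fun p => GoodX ε u v n (rd p.1 p.2))) ∪ (((F ×ˢ F).filter (fun p => rd p.1 p.2 ∈ E)) ∪
        ((F ×ˢ F).filter (fun p => rd p.2 p.1 ∈ E))) := by
    intro p hp
    rw [mem_filter, hQ] at hp
    rw [mem_union, mem_union, mem_filter, mem_filter, mem_filter]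
    rcases hp.2.2 with h | h | h
    · exact Or.inl ⟨hp.1, h.1⟩
    · exact Or.inr (Or.inl ⟨hp.1, h⟩)
    · exact Or.inr (Or.inr ⟨hp.1, h⟩)
  have hc1 : #((F ×ˢ F).filter (fun p => rd p.1 p.2 ∈ E)) ≤ #E * #F := by
    rw [← card_product]
    refine card_le_card_of_injOn (fun p => (rd p.1 p.2, p.1)) ?_ ?_
    · intro p hp
      rw [mem_coe, mem_filter, mem_product] at hp
      rw [mem_coe, mem_product]
      exact ⟨hp.2, hp.1.1⟩
    · intro p hp p' hp' h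
      rw [mem_coe, mem_filter, mem_product] at hp hp'
      dsimp only at h
      rw [Prod.mk.injEq] at h
      have h6 : rd p.1 p.2 = rd p.1 p'.2 := by rw [h.1, h.2]
      exact Prod.ext h.2 (rd_inj (hF _ hp.1.1) h6)
  have hc2 : #((F ×ˢ F).filter (fun p => rd p.2 p.1 ∈ E)) ≤ #E * #F := by
    rw [← card_product]
    refine card_le_card_of_injOn (fun p => (rd p.2 p.1, p.2)) ?_ ?_
    · intro p hp
      rw [mem_coe, mem_filter, mem_product] at hp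
      rw [mem_coe, mem_product]
      exact ⟨hp.2, hp.1.2⟩
    · intro p hp p' hp' h
      rw [mem_coe, mem_filter, mem_product] at hp hp'
      dsimp only at h
      rw [Prod.mk.injEq] at h
      have h6 : rd p.2 p.1 = rd p.2 p'.1 := by rw [h.1, h.2]
      exact Prod.ext (rd_inj (hF _ hp.1.2) h6) h.2
  have h7 := (card_le_card hsub).trans ((card_union_le _ _).trans
    (Nat.add_le_add_left (card_union_le _ _) _))
  have h8 : (#((F ×ˢ F).filter (fun ab => ab.1 ≠ ab.2 ∧ Q ab.1 ab.2)) : ℝ) ≤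
      #((F ×ˢ F).filter (fun p => GoodX ε u v n (rd p.1 p.2))) + (#E * #F + #E * #F) := by
    have h9 : #((F ×ˢ F).filter (fun ab => ab.1 ≠ ab.2 ∧ Q ab.1 ab.2)) ≤
      #((F ×ˢ F).filter (fun p => GoodX ε u v n (rd p.1 p.2))) + (#E * #F + #E * #F) := by omega
    exact_mod_cast h9
  linarith

end Pool.Agent.FG
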