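import Pool.Agent.helper76.FG.Spec

/-!
# Project FG: cases with an integral fixed point, and the powers of a case
-/

set_option autoImplicit false

namespace Pool.Agent.FG

open Finset
open Pool.Agent.FP (rd)
open Pool.Agent.IT (Ad br)

theorem cop1 {a b : ℤ} (h : IsCoprime a b) : IsCoprime a (a - b) := by
  obtain ⟨x, y, hxy⟩ := h
  exact ⟨x + y, -y, by linear_combination hxy⟩

theorem cop2 {a b : ℤ} (h : IsCoprime a b) : IsCoprime b (a - b) := by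
  obtain ⟨x, y, hxy⟩ := h
  exact ⟨y + x, x, by linear_combination hxy⟩

theorem cx_int (h : ℤ) (a b : ℕ) : cx h 1 1 (a, b) = h * ((a : ℤ) - b) := by
  unfold cx
  simp

theorem Ad_int (h : ℤ) (hh : h ≠ 0) (a b : ℕ) (ha : 1 ≤ a) (hb : 1 ≤ b) (hab : Nat.Coprime a b) (hne : a ≠ b) (hc : IsCoprime h ((a * b : ℕ) : ℤ)) :
    Ad a b (h * ((a : ℤ) - b)) := by
  have h1 : IsCoprime (a : ℤ) b := Nat.isCoprime_iff_coprime.2 hab
  rw [Nat.cast_mul] at hc
  have h2 := hc.of_mul_right_left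
  have h3 := hc.of_mul_right_right
  refine ⟨ha, hb, mul_ne_zero hh (sub_ne_zero.2 fun h => hne (by exact_mod_cast h)), hab, h2.symm.mul_right (cop1 h1), h3.symm.mul_right (cop2 h1), ?_⟩
  rintro ⟨⟨i, hi⟩, ⟨j, hj⟩, ⟨l, hl⟩⟩
  have h4 : (a : ℤ) - b = 2 * ((i : ℤ) - j) := by
    rw [hi, hj]
    push_cast
    ring
  rw [h4] at hl
  have h5 : h * (2 * ((i : ℤ) - j)) = 2 * (h * ((i : ℤ) - j)) := by ring
  rw [h5] at hl
  omega

/-- every ratio prime to the integer `h` belongs to a case with the fixed point `h` -/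
theorem Cx_int (h : ℤ) (hh : h ≠ 0) (K a b : ℕ) (ha : 1 ≤ a) (hb : 1 ≤ b) (hab : Nat.Coprime a b) (hne : a ≠ b) (hc : IsCoprime h ((a * b : ℕ) : ℤ)) :
    Cx h 1 1 K (a, b) := by
  refine ⟨by simp, ?_, fun p hp _ h1 => absurd (Nat.dvd_one.1 h1) hp.one_lt.ne'⟩
  rw [cx_int]
  exact Ad_int h hh a b ha hb hab hne hc

theorem br_mul (a b m : ℕ) : ((br a b m : ℕ) : ℤ) * ((a : ℤ) - b) = (a : ℤ) ^ m - (b : ℤ) ^ m := by
  unfold br
  push_cast
  exact geom_sum₂_mul (a : ℤ) (b : ℤ) m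

/-- the constant of the iterate -/
theorem cx_pow (a b : ℕ) (c u : ℤ) (v n d : ℕ) (hv : 1 ≤ v) (hc : c * v = u * ((a : ℤ) - b)) : cx u v n (a ^ d, b ^ d) = c * br a b (d * n) := by
  unfold cx
  have hv0 : (v : ℤ) ≠ 0 := by
    have : v ≠ 0 := by omega
    exact_mod_cast this
  have h1 : u * ((((a ^ d : ℕ) : ℤ)) ^ n - ((b ^ d : ℕ) : ℤ) ^ n) = (v : ℤ) * (c * br a b (d * n)) := by
    push_cast
    rw [← pow_mul, ← pow_mul, ← br_mul]
    linear_combination (-(br a b (d * n) : ℤ)) * hc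
  show u * ((((a ^ d : ℕ) : ℤ)) ^ n - ((b ^ d : ℕ) : ℤ) ^ n) / v = _
  rw [h1, Int.mul_ediv_cancel_left _ hv0]

theorem br_pos (a b m : ℕ) (ha : 1 ≤ a) (hb : 1 ≤ b) (hm : 1 ≤ m) : 1 ≤ br a b m := by
  unfold br
  refine Nat.one_le_iff_ne_zero.2 fun h => ?_
  have h1 := (Finset.sum_eq_zero_iff.1 h) 0 (mem_range.2 hm)
  have h2 : 0 < a ^ 0 * b ^ (m - 1 - 0) := by positivity
  omega

/-- the iterates of a case are cases -/
theorem Ad_pow (a b : ℕ) (c : ℤ) (h : Ad a b c) (d : ℕ) (hd : 1 ≤ d) : Ad (a ^ d) (b ^ d) (c * br a b d) := by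
  obtain ⟨ha, hb, hc, hab, hac, hbc, hodd⟩ := h
  have h1 : IsCoprime (a : ℤ) b := Nat.isCoprime_iff_coprime.2 hab
  have hbr := br_mul a b d
  have hd' : d = d - 1 + 1 := by omega
  have h2 : IsCoprime (a : ℤ) ((a : ℤ) ^ d - (b : ℤ) ^ d) := by
    have h3 : IsCoprime (a : ℤ) ((b : ℤ) ^ d) := h1.pow_right
    obtain ⟨x, y, hxy⟩ := h3
    refine ⟨x + y * (a : ℤ) ^ (d - 1), -y, ?_⟩
    have h4 : (a : ℤ) ^ d = a ^ (d - 1) * a := by rw [← pow_succ, ← hd']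
    rw [h4]
    linear_combination hxy
  have h3 : IsCoprime (b : ℤ) ((a : ℤ) ^ d - (b : ℤ) ^ d) := by
    have h3 : IsCoprime ((a : ℤ) ^ d) (b : ℤ) := h1.pow_left
    obtain ⟨x, y, hxy⟩ := h3
    refine ⟨y + x * (b : ℤ) ^ (d - 1), x, ?_⟩
    have h4 : (b : ℤ) ^ d = b ^ (d - 1) * b := by rw [← pow_succ, ← hd']
    rw [h4]
    linear_combination hxy
  rw [← hbr] at h2 h3
  refine ⟨Nat.pow_pos ha, Nat.pow_pos hb, mul_ne_zero hc ?_, Nat.Coprime.pow _ _ hab, ?_, ?_, ?_⟩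
  · have := br_pos a b d ha hb hd
    have h4 : br a b d ≠ 0 := by omega
    exact_mod_cast h4
  · push_cast
    exact (hac.mul_right h2.of_mul_right_left).pow_left
  · push_cast
    exact (hbc.mul_right h3.of_mul_right_left).pow_left
  · rintro ⟨h4, h5, h6⟩
    have h7 : Odd a := by
      by_contra h8
      rw [Nat.not_odd_iff_even] at h8
      exact (Nat.not_odd_iff_even.2 (h8.pow_of_ne_zero (by omega))) h4
    have h8 : Odd b := by
      by_contra h8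
      rw [Nat.not_odd_iff_even] at h8
      exact (Nat.not_odd_iff_even.2 (h8.pow_of_ne_zero (by omega))) h5
    exact hodd ⟨h7, h8, (Int.odd_mul.1 h6).1⟩

/-- `v` divides `a - b` -/
theorem dvd_of (a b : ℕ) (c u : ℤ) (v : ℕ) (huv : IsCoprime u (v : ℤ)) (hc : c * v = u * ((a : ℤ) - b)) : (v : ℤ) ∣ (a : ℤ) - b :=
  huv.symm.dvd_of_dvd_mul_left ⟨c, by rw [← hc]; ring⟩

/-- the iterates of a case with the fixed point `u/v` -/
theorem Cx_pow (a b : ℕ) (c u : ℤ) (v K n : ℕ) (h : Ad a b c) (hv : 1 ≤ v) (huv : IsCoprime u (v : ℤ)) (hc : c * v = u * ((a : ℤ) - b))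
    (hn : ∀ p : ℕ, p.Prime → p ≤ K → p ∣ v → p ∣ n) (d : ℕ) (hd : 1 ≤ d) : Cx u v n K (a ^ d, b ^ d) := by
  have h1 := dvd_of a b c u v huv hc
  refine ⟨?_, ?_, fun p hp hpK hpv => ?_⟩
  · push_cast
    exact h1.trans (sub_dvd_pow_sub_pow _ _ d)
  · rw [cx_pow a b c u v 1 d hv hc, mul_one]
    exact Ad_pow a b c h d hd
  · rw [cx_pow a b c u v n d hv hc]
    refine Dvd.dvd.mul_left ?_ _
    haveI : Fact p.Prime := ⟨hp⟩
    have h2 : ((br a b (d * n) : ℕ) : ZMod p) = 0 := by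
      have hab : (a : ZMod p) = b := by
        have h3 : (p : ℤ) ∣ (a : ℤ) - b := (Int.natCast_dvd_natCast.2 hpv).trans h1
        have h4 := (ZMod.intCast_zmod_eq_zero_iff_dvd _ p).2 h3
        push_cast at h4
        exact sub_eq_zero.1 h4
      unfold br
      push_cast
      rw [hab]
      have h2 : ∀ j ∈ range (d * n), (b : ZMod p) ^ j * (b : ZMod p) ^ (d * n - 1 - j) = (b : ZMod p) ^ (d * n - 1) := by
        intro j hj
        have hj' : j < d * n := mem_range.1 hj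
        rw [← pow_add]
        congr 1
        omega
      rw [sum_congr rfl h2, sum_const, card_range, nsmul_eq_mul, (ZMod.natCast_eq_zero_iff (d * n) p).2 ((hn p hp hpK hpv).mul_left _), zero_mul]
    exact_mod_cast (ZMod.natCast_eq_zero_iff _ p).1 h2

theorem cx_swap (u : ℤ) (v n a b : ℕ) (h : (v : ℤ) ∣ (a : ℤ) - b) : cx u v n (b, a) = - cx u v n (a, b) := by
  unfold cx
  have h1 : (v : ℤ) ∣ u * ((a : ℤ) ^ n - (b : ℤ) ^ n) := (h.trans (sub_dvd_pow_sub_pow _ _ n)).mul_left _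
  have h2 : u * ((b : ℤ) ^ n - (a : ℤ) ^ n) = -(u * ((a : ℤ) ^ n - (b : ℤ) ^ n)) := by ring
  show u * ((b : ℤ) ^ n - (a : ℤ) ^ n) / v = -(u * ((a : ℤ) ^ n - (b : ℤ) ^ n) / v)
  rw [h2, Int.neg_ediv_of_dvd h1]

theorem Cx_swap (u : ℤ) (v n K a b : ℕ) (h : Cx u v n K (a, b)) : Cx u v n K (b, a) := by
  obtain ⟨h1, ⟨ha, hb, hc, hab, hac, hbc, hodd⟩, h3⟩ := h
  dsimp only at h1 ha hb hc hab hac hbc hodd
  refine ⟨?_, ⟨hb, ha, ?_, hab.symm, ?_, ?_, ?_⟩, fun p hp hpK hpv => ?_⟩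
  · dsimp only
    rw [← neg_sub]
    exact h1.neg_right
  · rw [cx_swap u v 1 a b h1]
    exact neg_ne_zero.2 hc
  · rw [cx_swap u v 1 a b h1]
    exact hbc.neg_right
  · rw [cx_swap u v 1 a b h1]
    exact hac.neg_right
  · rw [cx_swap u v 1 a b h1]
    rintro ⟨h4, h5, h6⟩
    exact hodd ⟨h5, h4, by simpa using h6.neg⟩
  · rw [cx_swap u v n a b h1]
    exact (h3 p hp hpK hpv).neg_right

end Pool.Agent.FG
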