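import Pool.Agent.helper72.FG.Cor
import Pool.Agent.helper72.FE.Cor

/-!
# Project FG: the consequences of `FGC` (integral fixed points, rational fixed points)
-/

set_option autoImplicit false

namespace Pool.Agent.FG

open Finset
open Pool.Agent.FP (rd)
open Pool.Agent.IT (Ad br)
open Pool.Agent.SK (Dens)

theorem GoodX_int (ε : ℝ) (h : ℤ) (a b : ℕ) : GoodX ε h 1 1 (a, b) ↔ Dens (1 - ε) a b (h * ((a : ℤ) - b)) := by
  unfold GoodX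
  rw [cx_int, pow_one, pow_one]

theorem rd_facts (h : ℤ) (s t : ℕ) (hs : 1 ≤ s) (ht : 1 ≤ t) (hst : s ≠ t) (h1 : IsCoprime h (s : ℤ)) (h2 : IsCoprime h (t : ℤ)) :
    1 ≤ (rd s t).1 ∧ 1 ≤ (rd s t).2 ∧ Nat.Coprime (rd s t).1 (rd s t).2 ∧ (rd s t).1 ≠ (rd s t).2 ∧ IsCoprime h (((rd s t).1 * (rd s t).2 : ℕ) : ℤ) := by
  obtain ⟨g, hg⟩ : ∃ g, g = Nat.gcd s t := ⟨_, rfl⟩
  have hg0 : 0 < g := by rw [hg]; exact Nat.gcd_pos_of_pos_left _ hs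
  obtain ⟨x, hx⟩ : g ∣ s := by rw [hg]; exact Nat.gcd_dvd_left s t
  obtain ⟨y, hy⟩ : g ∣ t := by rw [hg]; exact Nat.gcd_dvd_right s t
  have e1 : (rd s t).1 = y := by
    unfold rd
    rw [← hg]
    exact Nat.div_eq_of_eq_mul_right hg0 hy
  have e2 : (rd s t).2 = x := by
    unfold rd
    rw [← hg]
    exact Nat.div_eq_of_eq_mul_right hg0 hx
  rw [e1, e2]
  have hx0 : 0 < x := Nat.pos_of_ne_zero fun h0 => by rw [h0, mul_zero] at hx; omega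
  have hy0 : 0 < y := Nat.pos_of_ne_zero fun h0 => by rw [h0, mul_zero] at hy; omega
  refine ⟨hy0, hx0, ?_, fun h3 => hst (by rw [hx, hy, h3]), ?_⟩
  · have h3 : Nat.gcd (g * x) (g * y) = g := by rw [← hx, ← hy]; exact hg.symm
    rw [Nat.gcd_mul_left] at h3
    have h4 : Nat.gcd x y = 1 := Nat.eq_of_mul_eq_mul_left hg0 (by rw [mul_one]; exact h3)
    exact (Nat.coprime_comm.1 h4)
  · rw [hx, Nat.cast_mul] at h1
    rw [hy, Nat.cast_mul] at h2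
    rw [Nat.cast_mul]
    exact h2.of_mul_right_right.mul_right h1.of_mul_right_right

/-- the consequences -/
theorem fin (hF : FGC_stmt) : ∃ C : ℝ, 0 < C ∧ ∀ ε : ℝ, 0 < ε → ε ≤ 1 →
    (∀ h : ℤ, h ≠ 0 →
      (∃ F : Finset (ℕ × ℕ), (#F : ℝ) ≤ C / ε ^ 4 ∧ ∀ a b : ℕ, 1 ≤ a → 1 ≤ b → Nat.Coprime a b → a ≠ b → IsCoprime h ((a * b : ℕ) : ℤ) → (a, b) ∉ F →
        ∃ d : ℕ, 1 ≤ d ∧ d ≤ 3 ∧ Dens (1 - ε) (a ^ d) (b ^ d) (h * ((a : ℤ) ^ d - (b : ℤ) ^ d))) ∧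
      (∀ V : Finset ℕ, (∀ s ∈ V, 1 ≤ s ∧ IsCoprime h (s : ℤ)) → 1 / 3 * (#V : ℝ) ^ 2 - C / ε ^ 4 * #V ≤
        ({p | p ∈ V ×ˢ V ∧ Dens (1 - ε) (rd p.1 p.2).1 (rd p.1 p.2).2 (h * (((rd p.1 p.2).1 : ℤ) - (rd p.1 p.2).2))}.ncard : ℝ)) ∧
      (∀ a b : ℕ, 1 ≤ a → 1 ≤ b → Nat.Coprime a b → a ≠ b → IsCoprime h ((a * b : ℕ) : ℤ) →
        (∃ d : ℕ, 1 ≤ d ∧ (d : ℝ) ≤ C / ε ^ 4 ∧ Dens (1 - ε) (a ^ d) (b ^ d) (h * ((a : ℤ) ^ d - (b : ℤ) ^ d))) ∧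
        ∀ δ : ℝ, 0 < δ → ∃ M₀ : ℕ, ∀ M : ℕ, M₀ ≤ M → ∀ x : ℕ, (1 / 3 - δ) * M ≤
          ({d : ℕ | d ∈ Ioc x (x + M) ∧ Dens (1 - ε) (a ^ d) (b ^ d) (h * ((a : ℤ) ^ d - (b : ℤ) ^ d))}.ncard : ℝ))) ∧
    (∃ n₀ : ℕ, 1 ≤ n₀ ∧ ∀ (u : ℤ) (v : ℕ), u ≠ 0 → 1 ≤ v → IsCoprime u (v : ℤ) → ∃ F : Finset (ℕ × ℕ), (#F : ℝ) ≤ C / ε ^ 4 ∧
      ∀ (a b : ℕ) (c : ℤ), Ad a b c → a ≠ b → c * v = u * ((a : ℤ) - b) → (a, b) ∉ F →
        ∃ d : ℕ, 1 ≤ d ∧ d ≤ 3 ∧ Dens (1 - ε) (a ^ (d * n₀)) (b ^ (d * n₀)) (c * br a b (d * n₀))) := by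
  classical
  obtain ⟨C, hC, h1⟩ := FG4_of hF
  refine ⟨18 * C + 21, by linarith, fun ε hε hε1 => ?_⟩
  obtain ⟨K, h2⟩ := h1 ε hε hε1
  have h4 : ε ^ 4 ≤ 1 := pow_le_one₀ hε.le hε1
  have h4p : 0 < ε ^ 4 := by positivity
  have hinv : 1 ≤ 1 / ε ^ 4 := by rw [le_div_iff₀ h4p, one_mul]; exact h4
  have hCe : (18 * C + 21) / ε ^ 4 = 18 * (C / ε ^ 4) + 21 * (1 / ε ^ 4) := by ring
  rw [hCe]
  have hpow : ∀ (a b d : ℕ) (h : ℤ), h * (((a ^ d : ℕ) : ℤ) - ((b ^ d : ℕ) : ℤ)) = h * ((a : ℤ) ^ d - (b : ℤ) ^ d) := by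
    intro a b d h
    push_cast
    ring
  refine ⟨fun h hh => ?_, K.factorial, Nat.factorial_pos K, fun u v hu hv huv => ?_⟩
  · obtain ⟨E, hE, hE4⟩ := h2 h 1 1 hh le_rfl le_rfl (by rw [Nat.cast_one]; exact isCoprime_one_right)
    have hE0 : (0 : ℝ) ≤ #E := Nat.cast_nonneg _
    have hCx : ∀ a b : ℕ, 1 ≤ a → 1 ≤ b → Nat.Coprime a b → a ≠ b → IsCoprime h ((a * b : ℕ) : ℤ) → ∀ d : ℕ, 1 ≤ d → Cx h 1 1 K (a ^ d, b ^ d) := by
      intro a b ha hb hab hne hc d hd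
      refine Cx_int h hh K (a ^ d) (b ^ d) (Nat.pow_pos ha) (Nat.pow_pos hb) (Nat.Coprime.pow _ _ hab) (fun h3 => hne (Nat.pow_left_injective (by omega : d ≠ 0) h3)) ?_
      rw [← mul_pow]
      push_cast
      push_cast at hc
      exact hc.pow_right
    refine ⟨?_, ?_, ?_⟩
    · obtain ⟨F, hFc, hF3⟩ := pairs E
      refine ⟨F, ?_, fun a b ha hb hab hne hc hF' => ?_⟩
      · have h5 : (#F : ℝ) ≤ 6 * #E := by exact_mod_cast hFc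
        linarith
      · have h5 := three_case ε h 1 1 K E F hE4 hF3 a b ha hb hab hne (hCx a b ha hb hab hne hc) hF'
        rw [GoodX_int, GoodX_int, GoodX_int, hpow, hpow, hpow] at h5
        rcases h5 with h5 | h5 | h5
        · exact ⟨1, le_rfl, by norm_num, h5⟩
        · exact ⟨2, by norm_num, by norm_num, h5⟩
        · exact ⟨3, by norm_num, le_rfl, h5⟩
    · intro V hV
      have h5 := count ε h 1 1 K E hE4 V (fun s hs => (hV s hs).1) (fun s hs t ht hst => by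
        obtain ⟨f1, f2, f3, f4, f5⟩ := rd_facts h s t (hV s hs).1 (hV t ht).1 hst (hV s hs).2 (hV t ht).2
        exact Cx_int h hh K _ _ f1 f2 f3 f4 f5)
      have h6 : (2 * (#E : ℝ) + 1) * #V ≤ (18 * (C / ε ^ 4) + 21 * (1 / ε ^ 4)) * #V :=
        mul_le_mul_of_nonneg_right (by linarith) (Nat.cast_nonneg _)
      refine le_trans (by linarith) (h5.trans (le_of_eq ?_))
      rw [← Set.ncard_coe_finset]
      congr 2
      ext p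
      simp only [coe_filter, Set.mem_ofPred_eq]
      exact and_congr_right fun _ => GoodX_int ε h _ _
    · intro a b ha hb hab hne hc
      obtain ⟨E', hE'c, -, h5⟩ := four_case ε h 1 1 K E hE4 a b ha hb hab hne (hCx a b ha hb hab hne hc)
      have h6 : (fun d : ℕ => GoodX ε h 1 1 (a ^ d, b ^ d)) = fun d => Dens (1 - ε) (a ^ d) (b ^ d) (h * ((a : ℤ) ^ d - (b : ℤ) ^ d)) := by
        funext d
        rw [GoodX_int, hpow]
      rw [h6] at h5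
      have h7 : (#E' : ℝ) ≤ 2 * #E := by exact_mod_cast hE'c
      refine ⟨?_, fun δ hδ => ?_⟩
      · obtain ⟨d, hd1, hd2, hd⟩ := Pool.Agent.FEX.one E' _ h5
        refine ⟨d, hd1, ?_, hd⟩
        have h8 : (d : ℝ) ≤ 3 * (3 * #E' + 1) := by exact_mod_cast hd2
        linarith
      · obtain ⟨M₀, h8⟩ := Pool.Agent.FEX.third E' _ h5 δ hδ
        refine ⟨M₀, fun M hM x => (h8 M hM x).trans (le_of_eq ?_)⟩
        rw [← Set.ncard_coe_finset]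
        congr 2
        ext d
        simp only [coe_filter, Set.mem_ofPred_eq]
  · obtain ⟨E, hE, hE4⟩ := h2 u v K.factorial hu hv (Nat.factorial_pos K) huv
    obtain ⟨F, hFc, hF3⟩ := pairs E
    refine ⟨F, ?_, fun a b c hA hne hc hF' => ?_⟩
    · have h5 : (#F : ℝ) ≤ 6 * #E := by exact_mod_cast hFc
      have hE0 : (0 : ℝ) ≤ #E := Nat.cast_nonneg _
      linarith
    · have hd : ∀ d : ℕ, GoodX ε u v K.factorial (a ^ d, b ^ d) ↔ Dens (1 - ε) (a ^ (d * K.factorial)) (b ^ (d * K.factorial)) (c * br a b (d * K.factorial)) := by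
        intro d
        unfold GoodX
        rw [cx_pow a b c u v K.factorial d hv hc, pow_mul, pow_mul]
      have h5 := three_case ε u v K.factorial K E F hE4 hF3 a b hA.1 hA.2.1 hA.2.2.2.1 hne
        (Cx_pow a b c u v K K.factorial hA hv huv hc (fun p hp hpK _ => hp.dvd_factorial.2 hpK)) hF'
      rw [hd, hd, hd] at h5
      rcases h5 with h5 | h5 | h5
      · exact ⟨1, le_rfl, by norm_num, h5⟩
      · exact ⟨2, by norm_num, by norm_num, h5⟩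
      · exact ⟨3, by norm_num, le_rfl, h5⟩

end Pool.Agent.FG
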