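import Pool.Agent.helper72.FG.Fin

/-!
# Project FG: `FGC` with the multiples `n` of an absolute `n₀`
-/

set_option autoImplicit false

namespace Pool.Agent.FG

open Finset
open Pool.Agent.FP (rd)
open Pool.Agent.IT (Ad br)
open Pool.Agent.SK (Dens)

theorem cx_one (u : ℤ) (v : ℕ) (r : ℕ × ℕ) : cx u v 1 r = u * ((r.1 : ℤ) - r.2) / v := by
  unfold cx
  rw [pow_one, pow_one]

theorem Cx_of (u : ℤ) (v n K : ℕ) (r : ℕ × ℕ) (hv : 1 ≤ v) (huv : IsCoprime u (v : ℤ)) (hn : v = 1 ∨ K.factorial ∣ n) (h1 : (v : ℤ) ∣ (r.1 : ℤ) - r.2)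
    (h2 : Ad r.1 r.2 (u * ((r.1 : ℤ) - r.2) / v)) : Cx u v n K r := by
  obtain ⟨a, b⟩ := r
  dsimp only at h1 h2
  have hc : u * ((a : ℤ) - b) / v * v = u * ((a : ℤ) - b) := Int.ediv_mul_cancel (h1.mul_left _)
  have h3 := Cx_pow a b _ u v K n h2 hv huv hc (fun p hp hpK hpv => by
    rcases hn with hn | hn
    · exfalso
      rw [hn, Nat.dvd_one] at hpv
      exact hp.one_lt.ne' hpv
    · exact (hp.dvd_factorial.2 hpK).trans hn) 1 le_rfl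
  rw [pow_one, pow_one] at h3
  exact h3

theorem fgn (h : FGC_stmt) : ∀ k : ℕ, 1 ≤ k → ∃ C : ℝ, 0 < C ∧ ∀ ε : ℝ, 0 < ε → ε ≤ 1 → ∃ n₀ : ℕ, 1 ≤ n₀ ∧ ∀ (u : ℤ) (v n : ℕ), u ≠ 0 → 1 ≤ v → 1 ≤ n → IsCoprime u (v : ℤ) → (v = 1 ∨ n₀ ∣ n) →
    ∃ E : Finset (ℕ × ℕ), (#E : ℝ) ≤ C / ε ^ 4 ∧ ∀ s : Fin k → ℕ, (∀ i, 1 ≤ s i) → Function.Injective s →
      (∀ i j, i ≠ j → rd (s i) (s j) ∉ E ∧ (v : ℤ) ∣ ((rd (s i) (s j)).1 : ℤ) - (rd (s i) (s j)).2 ∧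
        Ad (rd (s i) (s j)).1 (rd (s i) (s j)).2 (u * (((rd (s i) (s j)).1 : ℤ) - (rd (s i) (s j)).2) / v)) →
      ∃ S : Finset (Fin k), k < 4 * #S ∧ ∀ i ∈ S, ∀ j ∈ S, i ≠ j →
        Dens (1 - ε) ((rd (s i) (s j)).1 ^ n) ((rd (s i) (s j)).2 ^ n) (u * (((rd (s i) (s j)).1 : ℤ) ^ n - ((rd (s i) (s j)).2 : ℤ) ^ n) / v) := by
  intro k hk
  obtain ⟨C, hC, h1⟩ := h k hk
  refine ⟨C, hC, fun ε hε hε1 => ?_⟩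
  obtain ⟨K, h2⟩ := h1 ε hε hε1
  refine ⟨K.factorial, Nat.factorial_pos K, fun u v n hu hv hn huv hvn => ?_⟩
  obtain ⟨E, hE, h3⟩ := h2 u v n hu hv hn huv
  refine ⟨E, hE, fun s hs hinj hrat => ?_⟩
  exact h3 s hs hinj fun i j hij => ⟨(hrat i j hij).1, Cx_of u v n K _ hv huv hvn (hrat i j hij).2.1 (hrat i j hij).2.2⟩

end Pool.Agent.FG
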